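import Mathlib

set_option autoImplicit false

/-! # An implicit function on a fixed disc -/

namespace Pool.Agent.Helper95.GQ

open Set Filter Metric Topology Complex

/-- The equation `t + z ^ d + E t z = z` is solved by a holomorphic function `t = T z`. -/
theorem implicit {d : ℕ} {R η : ℝ} (hR : 2 ^ d + 4 ≤ R) (hη : 0 ≤ η) (hη1 : η ≤ 1 / 2)
    {E : ℂ → ℂ → ℂ} (hE1 : ∀ z, Differentiable ℂ fun t => E t z)
    (hE2 : ∀ T : ℂ → ℂ, DifferentiableOn ℂ T (ball 0 2) →
      DifferentiableOn ℂ (fun z => E (T z) z) (ball 0 2))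
    (hE : ∀ t z : ℂ, ‖t‖ ≤ R → ‖z‖ ≤ R → ‖E t z‖ ≤ η) :
    ∃ T : ℂ → ℂ, DifferentiableOn ℂ T (ball 0 2) ∧
      ∀ z ∈ ball (0 : ℂ) 2, T z + z ^ d + E (T z) z = z ∧ ‖T z - (z - z ^ d)‖ ≤ η := by
  have h2d : (1 : ℝ) ≤ 2 ^ d := one_le_pow₀ (by norm_num)
  have hL : ∀ z ∈ ball (0 : ℂ) 2, ‖z‖ ≤ 2 ∧ ‖z - z ^ d‖ ≤ 2 + 2 ^ d := by
    intro z hz
    rw [mem_ball_zero_iff] at hz
    refine ⟨hz.le, (norm_sub_le _ _).trans ?_⟩
    rw [norm_pow]
    have : ‖z‖ ^ d ≤ 2 ^ d := by gcongr
    linarith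
  -- the Lipschitz bound
  have hlip : ∀ z ∈ ball (0 : ℂ) 2, ∀ s ∈ closedBall (0 : ℂ) (R - 1), ∀ t ∈ closedBall (0 : ℂ) (R - 1),
      ‖E t z - E s z‖ ≤ η * ‖t - s‖ := by
    intro z hz s hs t ht
    refine (convex_closedBall (0 : ℂ) (R - 1)).norm_image_sub_le_of_norm_deriv_le
      (f := fun t => E t z) (fun x _ => hE1 z x) (fun x hx => ?_) hs ht
    rw [mem_closedBall_zero_iff] at hx
    have h1 : ∀ w ∈ sphere x 1, ‖E w z‖ ≤ η := by
      intro w hw
      rw [mem_sphere, dist_eq_norm] at hw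
      apply hE
      · have := norm_add_le (w - x) x
        rw [sub_add_cancel] at this
        linarith
      · have := (hL z hz).1
        linarith
    have h2 := Complex.norm_deriv_le_of_forall_mem_sphere_norm_le (f := fun t => E t z) (c := x)
      one_pos (hE1 z).diffContOnCl h1
    simpa using h2
  -- the iteration
  obtain ⟨S, hS⟩ : ∃ S : ℕ → ℂ → ℂ, S = fun k => Nat.rec (fun z => z - z ^ d)
    (fun _ T z => z - z ^ d - E (T z) z) k := ⟨_, rfl⟩
  have hS0 : ∀ z, S 0 z = z - z ^ d := by intro z; subst hS; rfl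
  have hSs : ∀ k z, S (k + 1) z = z - z ^ d - E (S k z) z := by intro k z; subst hS; rfl
  have hdiff : ∀ k, DifferentiableOn ℂ (S k) (ball 0 2) := by
    intro k
    induction k with
    | zero =>
      have h1 : S 0 = fun z => z - z ^ d := funext hS0
      rw [h1]
      exact (differentiable_id.sub (differentiable_id.pow d)).differentiableOn
    | succ k ih =>
      have h1 : S (k + 1) = fun z => z - z ^ d - E (S k z) z := funext (hSs k)
      rw [h1]
      exact (differentiable_id.sub (differentiable_id.pow d)).differentiableOn.sub (hE2 _ ih)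
  have hbd : ∀ k, ∀ z ∈ ball (0 : ℂ) 2, ‖S k z - (z - z ^ d)‖ ≤ η ∧ ‖S k z‖ ≤ R - 1 := by
    intro k z hz
    have h0 : ‖S k z - (z - z ^ d)‖ ≤ η → ‖S k z‖ ≤ R - 1 := by
      intro h
      have h1 := norm_add_le (S k z - (z - z ^ d)) (z - z ^ d)
      rw [sub_add_cancel] at h1
      have h2 := (hL z hz).2
      linarith
    have h1 : ‖S k z - (z - z ^ d)‖ ≤ η := by
      induction k with
      | zero =>
        rw [hS0, sub_self, norm_zero]
        exact hη
      | succ k ih =>
        have h2 : ‖S k z - (z - z ^ d)‖ ≤ η := by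
          apply ih
          intro h
          have h1 := norm_add_le (S k z - (z - z ^ d)) (z - z ^ d)
          rw [sub_add_cancel] at h1
          have h2 := (hL z hz).2
          linarith
        have h3 : ‖S k z‖ ≤ R := by
          have h1 := norm_add_le (S k z - (z - z ^ d)) (z - z ^ d)
          rw [sub_add_cancel] at h1
          have h2 := (hL z hz).2
          linarith
        rw [hSs, sub_sub_cancel_left, norm_neg]
        apply hE _ _ h3
        have := (hL z hz).1
        linarith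
    exact ⟨h1, h0 h1⟩
  have hstep : ∀ k, ∀ z ∈ ball (0 : ℂ) 2, dist (S k z) (S (k + 1) z) ≤ 1 / 2 * (1 / 2) ^ k := by
    intro k z hz
    induction k with
    | zero =>
      rw [dist_comm, dist_eq_norm, hS0]
      have := (hbd 1 z hz).1
      rw [zero_add, pow_zero, mul_one]
      linarith
    | succ k ih =>
      have h1 : S (k + 1 + 1) z - S (k + 1) z = -(E (S (k + 1) z) z - E (S k z) z) := by
        rw [hSs (k + 1), hSs k]
        ring
      rw [dist_comm, dist_eq_norm, h1, norm_neg]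
      have h2 := hlip z hz (S k z) (by rw [mem_closedBall_zero_iff]; exact (hbd k z hz).2)
        (S (k + 1) z) (by rw [mem_closedBall_zero_iff]; exact (hbd (k + 1) z hz).2)
      rw [dist_comm, dist_eq_norm] at ih
      calc ‖E (S (k + 1) z) z - E (S k z) z‖ ≤ η * ‖S (k + 1) z - S k z‖ := h2
        _ ≤ 1 / 2 * (1 / 2 * (1 / 2) ^ k) := by gcongr
        _ = 1 / 2 * (1 / 2) ^ (k + 1) := by ring
  have hcau : ∀ z ∈ ball (0 : ℂ) 2, CauchySeq fun k => S k z := fun z hz =>
    cauchySeq_of_le_geometric (1 / 2) (1 / 2) (by norm_num) fun k => hstep k z hz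
  have hlim : ∀ z : ℂ, ∃ w : ℂ, z ∈ ball (0 : ℂ) 2 → Tendsto (fun k => S k z) atTop (𝓝 w) := by
    intro z
    by_cases hz : z ∈ ball (0 : ℂ) 2
    · obtain ⟨w, hw⟩ := cauchySeq_tendsto_of_complete (hcau z hz)
      exact ⟨w, fun _ => hw⟩
    · exact ⟨0, fun h => absurd h hz⟩
  choose T hT using hlim
  have hdist : ∀ k, ∀ z ∈ ball (0 : ℂ) 2, dist (S k z) (T z) ≤ (1 / 2) ^ k := by
    intro k z hz
    have h1 := dist_le_of_le_geometric_of_tendsto (1 / 2) (1 / 2) (by norm_num)
      (fun k => hstep k z hz) (hT z hz) k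
    refine h1.trans (le_of_eq ?_)
    ring
  have hunif : TendstoUniformlyOn S T atTop (ball 0 2) := by
    rw [Metric.tendstoUniformlyOn_iff]
    intro ε hε
    have h1 : Tendsto (fun k : ℕ => (1 / 2 : ℝ) ^ k) atTop (𝓝 0) :=
      tendsto_pow_atTop_nhds_zero_of_lt_one (by norm_num) (by norm_num)
    filter_upwards [h1.eventually_lt_const hε] with k hk z hz
    rw [dist_comm]
    exact (hdist k z hz).trans_lt hk
  refine ⟨T, hunif.tendstoLocallyUniformlyOn.differentiableOn (Eventually.of_forall hdiff)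
    isOpen_ball, fun z hz => ⟨?_, ?_⟩⟩
  · have h1 : Tendsto (fun k => S (k + 1) z) atTop (𝓝 (T z)) :=
      (hT z hz).comp (tendsto_add_atTop_nat 1)
    have h2 : Tendsto (fun k => S (k + 1) z) atTop (𝓝 (z - z ^ d - E (T z) z)) := by
      have h3 : (fun k => S (k + 1) z) = fun k => z - z ^ d - E (S k z) z := by
        funext k
        exact hSs k z
      rw [h3]
      exact tendsto_const_nhds.sub (((hE1 z).continuous.tendsto (T z)).comp (hT z hz))
    have h4 := tendsto_nhds_unique h1 h2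
    linear_combination h4
  · exact le_of_tendsto ((hT z hz).sub_const _).norm (Eventually.of_forall fun k => (hbd k z hz).1)

/-- zeros by the minimum principle -/
theorem exists_zero {F : ℂ → ℂ} {p : ℂ} {ρ m : ℝ} (hρ : 0 < ρ)
    (hF : DifferentiableOn ℂ F (closedBall p ρ)) (hm : ∀ z ∈ sphere p ρ, m ≤ ‖F z‖)
    (hp : ‖F p‖ < m) : ∃ z ∈ ball p ρ, F z = 0 := by
  by_contra hcon
  push Not at hcon
  have hm0 : 0 < m := (norm_nonneg _).trans_lt hp
  have hne : ∀ z ∈ closedBall p ρ, F z ≠ 0 := by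
    intro z hz h0
    rcases eq_or_lt_of_le (mem_closedBall.1 hz) with h | h
    · have h1 := hm z h
      rw [h0, norm_zero] at h1
      linarith
    · exact hcon z h h0
  have hG : DifferentiableOn ℂ (fun z => (F z)⁻¹) (closedBall p ρ) := hF.inv hne
  have hcl : closure (ball p ρ) = closedBall p ρ := closure_ball p hρ.ne'
  have hDC : DiffContOnCl ℂ (fun z => (F z)⁻¹) (ball p ρ) := by
    apply DifferentiableOn.diffContOnCl
    rw [hcl]
    exact hG
  have h1 := Complex.norm_le_of_forall_mem_frontier_norm_le isBounded_ball hDC (C := m⁻¹) (by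
    intro z hz
    rw [frontier_ball p hρ.ne'] at hz
    rw [norm_inv]
    exact inv_anti₀ hm0 (hm z hz)) (subset_closure (mem_ball_self hρ))
  have h2 : 0 < ‖F p‖ := norm_pos_iff.2 (hne p (mem_closedBall_self hρ.le))
  rw [norm_inv] at h1
  have h3 := (inv_le_inv₀ h2 hm0).1 h1
  linarith

end Pool.Agent.Helper95.GQ
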