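import Mathlib

set_option autoImplicit false

/-! # A disc which is mapped into itself at a parabolic point -/

namespace Pool.Agent.Helper95.GQ

open Set Filter Metric Topology Complex

/-- the model -/
theorem model {v k : ℂ} {K ρ : ℝ} (hk : ‖k‖ ≤ K) (hρ : 0 < ρ) (hρK : 8 * ρ * (1 + K) ≤ 1)
    (hv : ‖v - ρ‖ < ρ) : ‖v - v ^ 2 + k * v ^ 3 - ρ‖ < ρ := by
  have hK : 0 ≤ K := (norm_nonneg k).trans hk
  obtain ⟨N, hN⟩ : ∃ N, N = ‖v‖ := ⟨_, rfl⟩
  have hN0 : 0 ≤ N := by rw [hN]; exact norm_nonneg v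
  have hN2 : N < 2 * ρ := by
    have h1 := norm_add_le (v - ρ) (ρ : ℂ)
    rw [sub_add_cancel, Complex.norm_real, Real.norm_of_nonneg hρ.le] at h1
    rw [hN]
    linarith
  have e1 : N ^ 2 = v.re ^ 2 + v.im ^ 2 := by
    rw [hN, Complex.sq_norm, Complex.normSq_apply]
    ring
  have e2 : ‖v - ρ‖ ^ 2 = N ^ 2 - 2 * ρ * v.re + ρ ^ 2 := by
    rw [Complex.sq_norm, Complex.normSq_apply, e1]
    simp only [Complex.sub_re, Complex.sub_im, Complex.ofReal_re, Complex.ofReal_im]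
    ring
  have e3 : ‖v - v ^ 2 - ρ‖ ^ 2 = ρ ^ 2 - ((2 * ρ * v.re - N ^ 2) * (1 - 2 * v.re) +
      2 * ρ * N ^ 2 - N ^ 2 * N ^ 2) := by
    rw [Complex.sq_norm, Complex.normSq_apply, e1]
    have h1 : (v ^ 2).re = v.re ^ 2 - v.im ^ 2 := by
      rw [pow_two, Complex.mul_re]
      ring
    have h2 : (v ^ 2).im = 2 * v.re * v.im := by
      rw [pow_two, Complex.mul_im]
      ring
    simp only [Complex.sub_re, Complex.sub_im, Complex.ofReal_re, Complex.ofReal_im, h1, h2]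
    ring
  have h1 : ‖v - ρ‖ ^ 2 < ρ ^ 2 := by
    have := norm_nonneg (v - ρ)
    nlinarith
  have hpos : 0 < 2 * ρ * v.re - N ^ 2 := by linarith
  have hx : v.re ≤ N := by rw [hN]; exact Complex.re_le_norm v
  have hρ1 : 8 * ρ ≤ 1 := by nlinarith
  have hρK1 : 8 * ρ * K ≤ 1 := by nlinarith
  have hN4 : N ≤ 1 / 4 := by linarith
  have hKN : K * N ≤ 1 / 4 := by nlinarith
  have hx0 : 0 < v.re := by
    by_contra hcon
    rw [not_lt] at hcon
    have : 2 * ρ * v.re ≤ 0 := mul_nonpos_of_nonneg_of_nonpos (by positivity) hcon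
    nlinarith [sq_nonneg N]
  have hNpos : 0 < N := by linarith
  have hNN : 0 < N ^ 2 := by positivity
  have hNρ : N ^ 2 ≤ ρ / 2 := by nlinarith
  have hKN3 : K * N ^ 3 ≤ N ^ 2 / 4 := by
    have : K * N ^ 3 = (K * N) * N ^ 2 := by ring
    rw [this]
    nlinarith
  have h2 : ‖v - v ^ 2 - ρ‖ < ρ - K * N ^ 3 := by
    apply lt_of_pow_lt_pow_left₀ 2 (by linarith)
    rw [e3]
    have h5 : 0 < (2 * ρ * v.re - N ^ 2) * (1 - 2 * v.re) := mul_pos hpos (by linarith)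
    have h6 : N ^ 2 * N ^ 2 ≤ 2 * ρ * N ^ 2 / 4 := by nlinarith
    have h7 : 2 * ρ * (K * N ^ 3) ≤ 2 * ρ * (N ^ 2 / 4) := by gcongr
    nlinarith [sq_nonneg (K * N ^ 3)]
  have h4 : ‖k * v ^ 3‖ ≤ K * N ^ 3 := by
    rw [norm_mul, norm_pow, ← hN]
    gcongr
  have e4 : v - v ^ 2 + k * v ^ 3 - ρ = (v - v ^ 2 - ρ) + k * v ^ 3 := by ring
  rw [e4]
  calc ‖(v - v ^ 2 - ρ) + k * v ^ 3‖ ≤ ‖v - v ^ 2 - ρ‖ + ‖k * v ^ 3‖ := norm_add_le _ _
    _ < ρ := by linarith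

/-- the Taylor formula -/
theorem taylor {g : ℂ → ℂ} (hg : Differentiable ℂ g) (p : ℂ) : ∃ h : ℂ → ℂ, Differentiable ℂ h ∧
    ∀ z, g z = g p + (z - p) * h z := by
  refine ⟨dslope g p, ?_, fun z => ?_⟩
  · rw [← differentiableOn_univ] at hg ⊢
    exact (differentiableOn_dslope univ_mem).2 hg
  · have := sub_smul_dslope g p z
    rw [smul_eq_mul] at this
    rw [this]
    ring

/-- **A trap at a parabolic point.** -/
theorem petal {g : ℂ → ℂ} (hg : Differentiable ℂ g) {p : ℂ} (h0 : g p = p) (h1 : deriv g p = 1)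
    (h2 : deriv (deriv g) p ≠ 0) :
    ∃ U : Set ℂ, IsOpen U ∧ U.Nonempty ∧ Bornology.IsBounded U ∧ MapsTo g U U := by
  obtain ⟨g₁, d1, e1⟩ := taylor hg p
  obtain ⟨g₂, d2, e2⟩ := taylor d1 p
  obtain ⟨g₃, d3, e3⟩ := taylor d2 p
  have a1 : g₁ p = 1 := by
    rw [← h1]
    have h3 : HasDerivAt (fun z => g p + (z - p) * g₁ z) (0 + (1 * g₁ p + (p - p) * deriv g₁ p)) p := by
      apply HasDerivAt.add
      · exact hasDerivAt_const p (g p)
      · exact ((hasDerivAt_id p).sub_const p).mul (d1 p).hasDerivAt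
    have h4 : g = fun z => g p + (z - p) * g₁ z := funext e1
    rw [h4]
    have h5 : (fun z => g p + (z - p) * g₁ z) p = g p := by simp
    rw [h3.deriv]
    ring
  have e4 : ∀ z, g z = z + (z - p) ^ 2 * g₂ z := by
    intro z
    rw [e1 z, e2 z, a1, h0]
    ring
  have hp2 : ∀ z : ℂ, HasDerivAt (fun z : ℂ => (z - p) ^ 2) (2 * (z - p)) z := by
    intro z
    have h8 := ((hasDerivAt_id z).sub_const p).fun_pow 2
    simpa using h8
  have a2 : g₂ p ≠ 0 := by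
    intro h5
    apply h2
    have h6 : ∀ z, deriv g z = 1 + (2 * (z - p) * g₂ z + (z - p) ^ 2 * deriv g₂ z) := by
      intro z
      have h7 : HasDerivAt (fun z => z + (z - p) ^ 2 * g₂ z)
          (1 + (2 * (z - p) * g₂ z + (z - p) ^ 2 * deriv g₂ z)) z := by
        apply HasDerivAt.add (hasDerivAt_id z)
        apply HasDerivAt.mul _ (d2 z).hasDerivAt
        exact hp2 z
      have h9 : g = fun z => z + (z - p) ^ 2 * g₂ z := funext e4
      rw [h9]
      exact h7.deriv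
    have h10 : deriv g = fun z => 1 + (2 * (z - p) * g₂ z + (z - p) ^ 2 * deriv g₂ z) := funext h6
    rw [h10]
    have h11 : DifferentiableAt ℂ (deriv g₂) p := ((d2.analyticAt p).deriv).differentiableAt
    have h12 : HasDerivAt (fun z => 1 + (2 * (z - p) * g₂ z + (z - p) ^ 2 * deriv g₂ z))
        (0 + ((2 * g₂ p + 2 * (p - p) * deriv g₂ p) +
          (2 * (p - p) * deriv g₂ p + (p - p) ^ 2 * deriv (deriv g₂) p))) p := by
      apply HasDerivAt.add (hasDerivAt_const p 1)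
      apply HasDerivAt.add
      · apply HasDerivAt.mul _ (d2 p).hasDerivAt
        have h8 := ((hasDerivAt_id p).sub_const p).const_mul 2
        simpa using h8
      · apply HasDerivAt.mul _ h11.hasDerivAt
        exact hp2 p
    rw [h12.deriv, h5]
    ring
  obtain ⟨b, hb⟩ : ∃ b, b = g₂ p := ⟨_, rfl⟩
  have hb0 : b ≠ 0 := by rw [hb]; exact a2
  have hbn : 0 < ‖b‖ := norm_pos_iff.2 hb0
  obtain ⟨C, hC⟩ : ∃ C, ∀ z ∈ closedBall p 1, ‖g₃ z‖ ≤ C :=
    (isCompact_closedBall p 1).exists_bound_of_continuousOn d3.continuous.continuousOn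
  have hC0 : 0 ≤ C := (norm_nonneg _).trans (hC p (mem_closedBall_self zero_le_one))
  obtain ⟨K, hK⟩ : ∃ K, K = C / ‖b‖ ^ 2 := ⟨_, rfl⟩
  have hK0 : 0 ≤ K := by rw [hK]; positivity
  obtain ⟨ρ, hρ⟩ : ∃ ρ, ρ = min (1 / (8 * (1 + K))) (‖b‖ / 2) := ⟨_, rfl⟩
  have hρ0 : 0 < ρ := by rw [hρ]; positivity
  have hρK : 8 * ρ * (1 + K) ≤ 1 := by
    have h3 : ρ ≤ 1 / (8 * (1 + K)) := by rw [hρ]; exact min_le_left _ _
    rw [le_div_iff₀ (by positivity)] at h3
    linarith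
  have hρb : 2 * ρ ≤ ‖b‖ := by
    have h3 : ρ ≤ ‖b‖ / 2 := by rw [hρ]; exact min_le_right _ _
    linarith
  refine ⟨{z | ‖b * (p - z) - ρ‖ < ρ}, ?_, ?_, ?_, ?_⟩
  · apply isOpen_lt
    · fun_prop
    · fun_prop
  · refine ⟨p - ρ / b, ?_⟩
    show ‖b * (p - (p - ρ / b)) - ρ‖ < ρ
    have : b * (p - (p - ρ / b)) - ρ = 0 := by
      field_simp
      ring
    rw [this, norm_zero]
    exact hρ0
  · rw [isBounded_iff_forall_norm_le]
    refine ⟨‖p‖ + 1, fun z hz => ?_⟩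
    have hz' : ‖b * (p - z) - ρ‖ < ρ := hz
    have h3 := norm_add_le (b * (p - z) - ρ) (ρ : ℂ)
    rw [sub_add_cancel, norm_mul, Complex.norm_real, Real.norm_of_nonneg hρ0.le] at h3
    have h4 : ‖b‖ * ‖p - z‖ ≤ ‖b‖ * 1 := by linarith
    have h5 := le_of_mul_le_mul_left h4 hbn
    have h6 := norm_sub_le p (p - z)
    rw [sub_sub_cancel] at h6
    linarith
  · intro z hz
    have hz' : ‖b * (p - z) - ρ‖ < ρ := hz
    obtain ⟨v, hv⟩ : ∃ v, v = b * (p - z) := ⟨_, rfl⟩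
    rw [← hv] at hz'
    have h3 := norm_add_le (v - ρ) (ρ : ℂ)
    rw [sub_add_cancel, Complex.norm_real, Real.norm_of_nonneg hρ0.le] at h3
    have h4 : ‖b‖ * ‖p - z‖ ≤ ‖b‖ * 1 := by
      rw [← norm_mul, ← hv]
      linarith
    have h5 := le_of_mul_le_mul_left h4 hbn
    have h6 : z ∈ closedBall p 1 := by
      rw [mem_closedBall, dist_eq_norm, norm_sub_rev]
      exact h5
    have h7 : ‖g₃ z / b ^ 2‖ ≤ K := by
      rw [norm_div, norm_pow, hK]
      gcongr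
      exact hC z h6
    have h8 := model h7 hρ0 hρK hz'
    show ‖b * (p - g z) - ρ‖ < ρ
    have h9 : b * (p - g z) = v - v ^ 2 + g₃ z / b ^ 2 * v ^ 3 := by
      rw [e4 z, e3 z, ← hb, hv]
      field_simp
      ring
    rw [h9]
    exact h8

end Pool.Agent.Helper95.GQ
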