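import Pool.Agent.Helper95.GP.Res
import Pool.Agent.Helper95.GQ.Petal
import Pool.Agent.Helper95.GQ.Imp

set_option autoImplicit false

/-! # Parabolic parameters in the copies: boundary parameters with fat filled Julia sets -/

namespace Pool.Agent.Helper95.GQ

open Set Filter Metric MeasureTheory Topology
open N62a1eb23
open Pool.Agent.Helper95.GB (Att ph ph_cont diff_fc persist')
open Pool.Agent.H712R2 (fc P isCompact_multibrot)
open Pool.Agent.N673.QC (DD hasDerivAt_iter component)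
open Pool.Agent.Helper95.GP (CopyP copy_zero)

variable {d : ℕ}

theorem diff2 (d m : ℕ) {u v : ℂ → ℂ} {V : Set ℂ} (hu : DifferentiableOn ℂ u V)
    (hv : DifferentiableOn ℂ v V) : DifferentiableOn ℂ (fun z => (fc d (u z))^[m] (v z)) V := by
  induction m with
  | zero => exact hv
  | succ m ih =>
    have h1 : (fun z => (fc d (u z))^[m + 1] (v z)) =
        fun z => ((fc d (u z))^[m] (v z)) ^ d + u z := by
      funext x
      rw [Function.iterate_succ_apply']
      rfl
    rw [h1]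
    exact (ih.pow d).add hu

theorem diff_DD (d m : ℕ) {u v : ℂ → ℂ} {V : Set ℂ} (hu : DifferentiableOn ℂ u V)
    (hv : DifferentiableOn ℂ v V) : DifferentiableOn ℂ (fun z => DD d m (u z) (v z)) V := by
  unfold DD
  apply DifferentiableOn.fun_finsetProd
  intro i _
  exact (differentiableOn_const _).mul ((diff2 d i hu hv).pow _)

/-- the multiplier along the cycle -/
theorem DD_next {n : ℕ} {c z : ℂ} (hn : 0 < n) (h : (fc d c)^[n] z = z) :
    DD d n c (fc d c z) = DD d n c z := by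
  obtain ⟨k, rfl⟩ : ∃ k, n = k + 1 := ⟨n - 1, by omega⟩
  unfold DD
  obtain ⟨g, hg⟩ : ∃ g : ℕ → ℂ, g = fun i => (d : ℂ) * ((fc d c)^[i] z) ^ (d - 1) := ⟨_, rfl⟩
  have h1 : ∀ i, (d : ℂ) * ((fc d c)^[i] (fc d c z)) ^ (d - 1) = g (i + 1) := by
    intro i
    rw [hg]
    show _ = (d : ℂ) * ((fc d c)^[i + 1] z) ^ (d - 1)
    rw [Function.iterate_succ_apply]
  have h2 : ∀ i, (d : ℂ) * ((fc d c)^[i] z) ^ (d - 1) = g i := by
    intro i
    rw [hg]
  have h3 : g (k + 1) = g 0 := by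
    rw [hg]
    show (d : ℂ) * ((fc d c)^[k + 1] z) ^ (d - 1) = (d : ℂ) * ((fc d c)^[0] z) ^ (d - 1)
    rw [h]
    rfl
  simp only [h1, h2]
  rw [Finset.prod_range_succ, h3, Finset.prod_range_succ' g k]

theorem DD_iter {n : ℕ} {c z : ℂ} (hn : 0 < n) (h : (fc d c)^[n] z = z) (l : ℕ) :
    DD d n c ((fc d c)^[l] z) = DD d n c z := by
  induction l with
  | zero => rfl
  | succ l ih =>
    rw [Function.iterate_succ_apply']
    rw [DD_next hn, ih]
    rw [← Function.iterate_add_apply, add_comm, Function.iterate_add_apply, h]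

/-- the multiplier of the attracting cycle is unique -/
theorem mult_unique (hd : 2 ≤ d) {n : ℕ} {c z z' : ℂ} (h : IsAttractingCycle (fc d c) n z)
    (h' : IsAttractingCycle (fc d c) n z') : DD d n c z = DD d n c z' := by
  obtain ⟨l, h1⟩ := Pool.Agent.TH363.CD.crit_conv hd h
  obtain ⟨l', h2⟩ := Pool.Agent.TH363.CD.crit_conv hd h'
  have h3 : (fc d c)^[l] z = (fc d c)^[l'] z' := tendsto_nhds_unique h1 h2
  rw [← DD_iter h.1 h.2.1 l, ← DD_iter h'.1 h'.2.1 l', h3]

/-- the derivative of the renormalised map -/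
theorem deriv_ren {n : ℕ} {c m : ℂ} (hm : m ≠ 0) (z : ℂ) :
    HasDerivAt (fun w => (fc d c)^[n] (m * w) / m) (DD d n c (m * z)) z := by
  have h1 : HasDerivAt (fun w : ℂ => m * w) m z := by
    simpa using (hasDerivAt_id z).const_mul m
  have h2 := (hasDerivAt_iter d n c (m * z)).comp z h1
  have h3 := h2.div_const m
  rw [mul_div_cancel_right₀ _ hm] at h3
  exact h3

/-- the fat filled Julia set of a map with a trap -/
theorem fat_of {n : ℕ} (hn : 0 < n) {y m : ℂ} (hm : m ≠ 0) {U : Set ℂ} (hU : IsOpen U)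
    (hne : U.Nonempty) (hb : Bornology.IsBounded U)
    (hmap : MapsTo (fun w => (fc d y)^[n] (m * w) / m) U U) :
    0 < volume {z : ℂ | ¬ Tendsto (fun k : ℕ => ‖(fc d y)^[k] z‖) atTop atTop} := by
  have h1 : IsOpen ((fun w : ℂ => m * w) '' U) :=
    (Homeomorph.mulLeft₀ m hm).isOpenMap U hU
  refine (h1.measure_pos volume (hne.image _)).trans_le (measure_mono ?_)
  rintro _ ⟨u, hu, rfl⟩
  intro htend
  obtain ⟨B, hB⟩ := hb.exists_norm_le
  have h2 : ∀ k : ℕ, ∃ w ∈ U, (fc d y)^[n * k] (m * u) = m * w := by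
    intro k
    induction k with
    | zero => exact ⟨u, hu, rfl⟩
    | succ k ih =>
      obtain ⟨w, hw, hwe⟩ := ih
      refine ⟨_, hmap hw, ?_⟩
      show (fc d y)^[n * (k + 1)] (m * u) = m * ((fc d y)^[n] (m * w) / m)
      rw [mul_div_cancel₀ _ hm, show n * (k + 1) = n + n * k by ring,
        Function.iterate_add_apply, hwe]
  have h3 : Tendsto (fun k : ℕ => ‖(fc d y)^[n * k] (m * u)‖) atTop atTop :=
    htend.comp (tendsto_id.const_mul_atTop' hn)
  obtain ⟨k, hk⟩ := (h3.eventually_gt_atTop (‖m‖ * B)).exists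
  obtain ⟨w, hw, hwe⟩ := h2 k
  rw [hwe, norm_mul] at hk
  have := hB w hw
  have h4 : ‖m‖ * ‖w‖ ≤ ‖m‖ * B := by gcongr
  linarith

theorem par {N : ℕ} {a : ℝ} (ha : 0 < a) (h : ((N : ℝ) + 2) * a ^ (N + 1) = 1) {τ : ℝ}
    (hτ : 0 < τ) : ∃ R₁ : ℝ, 1 ≤ R₁ ∧ ∀ R : ℝ, R₁ ≤ R → ∀ (C : ℝ) (n : ℕ) (c m l : ℂ), 0 < n →
      CopyP (N + 2) C R n c m l → ∃ y ∈ frontier (multibrotSet (N + 2)),
        ‖y - (c + l * ph N a)‖ < ‖l‖ * τ ∧
        0 < volume {z : ℂ | ¬ Tendsto (fun k : ℕ => ‖(fc (N + 2) y)^[k] z‖) atTop atTop} := by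
  have hd : 2 ≤ N + 2 := by omega
  have hN2 : (0 : ℝ) < (N : ℝ) + 2 := by positivity
  have ha1 : a < 1 := by
    by_contra hcon
    rw [not_lt] at hcon
    have h1 : 1 ≤ a ^ (N + 1) := one_le_pow₀ hcon
    nlinarith
  obtain ⟨F₀, hF₀⟩ : ∃ F₀ : ℂ → ℂ, F₀ = fun z => ((N : ℂ) + 2) * z ^ (N + 1) := ⟨_, rfl⟩
  have hF₀a : F₀ a = 1 := by
    rw [hF₀]
    show ((N : ℂ) + 2) * (a : ℂ) ^ (N + 1) = 1
    exact_mod_cast congrArg (fun x : ℝ => (x : ℂ)) h
  have hF₀d : ∀ z : ℂ, HasDerivAt F₀ (((N : ℂ) + 2) * (((N + 1 : ℕ) : ℂ) * z ^ N)) z := by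
    intro z
    rw [hF₀]
    exact (hasDerivAt_pow (N + 1) z).const_mul _
  have hac : (a : ℂ) ≠ 0 := by exact_mod_cast ha.ne'
  have hN2c : ((N : ℂ) + 2) ≠ 0 := by exact_mod_cast hN2.ne'
  have hN1c : ((N + 1 : ℕ) : ℂ) ≠ 0 := by exact_mod_cast Nat.succ_ne_zero N
  -- the radius
  have h1 : ∀ᶠ z : ℂ in 𝓝 (a : ℂ), z ≠ a → F₀ z ≠ 1 :=
    eventually_nhdsWithin_iff.1
      ((hF₀d a).eventually_ne (mul_ne_zero hN2c (mul_ne_zero hN1c (pow_ne_zero _ hac))))
  have h2 : ∀ᶠ z : ℂ in 𝓝 (a : ℂ), ‖ph N z - ph N a‖ < τ / 2 := by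
    have hc : Continuous fun z : ℂ => ‖ph N z - ph N a‖ := ((ph_cont N).sub continuous_const).norm
    have h0 := hc.tendsto (a : ℂ)
    rw [sub_self, norm_zero] at h0
    exact h0.eventually_lt_const (half_pos hτ)
  obtain ⟨ρ₀, hρ₀, hball⟩ := Metric.eventually_nhds_iff.1 (h1.and h2)
  obtain ⟨ρ, hρ⟩ : ∃ ρ, ρ = min (ρ₀ / 2) (a / 2) := ⟨_, rfl⟩
  have hρ0 : 0 < ρ := by rw [hρ]; positivity
  have hρρ : ρ ≤ ρ₀ / 2 := by rw [hρ]; exact min_le_left _ _
  have hρa : ρ ≤ a / 2 := by rw [hρ]; exact min_le_right _ _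
  have hna : ‖(a : ℂ)‖ = a := by rw [Complex.norm_real, Real.norm_of_nonneg ha.le]
  have hsub : closedBall (a : ℂ) ρ ⊆ ball 0 2 := by
    intro z hz
    rw [mem_closedBall, dist_eq_norm] at hz
    rw [mem_ball_zero_iff]
    have := norm_add_le (z - a) (a : ℂ)
    rw [sub_add_cancel, hna] at this
    linarith
  obtain ⟨M, hM0, hM⟩ : ∃ M : ℝ, 0 < M ∧ ∀ z ∈ sphere (a : ℂ) ρ, M ≤ ‖F₀ z - 1‖ := by
    have hcomp : IsCompact (sphere (a : ℂ) ρ) := isCompact_sphere _ _
    have hcont : ContinuousOn (fun z => ‖F₀ z - 1‖) (sphere (a : ℂ) ρ) := by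
      have : Continuous F₀ := continuous_iff_continuousAt.2 fun z => (hF₀d z).continuousAt
      exact (this.sub continuous_const).norm.continuousOn
    have hne : (sphere (a : ℂ) ρ).Nonempty := by
      refine ⟨a + ρ, ?_⟩
      rw [mem_sphere, dist_eq_norm, add_sub_cancel_left, Complex.norm_real,
        Real.norm_of_nonneg hρ0.le]
    obtain ⟨w, hw, hmin⟩ := hcomp.exists_isMinOn hne hcont
    refine ⟨‖F₀ w - 1‖, ?_, fun z hz => hmin hz⟩
    rw [norm_pos_iff, sub_ne_zero]
    have hw' : dist w (a : ℂ) = ρ := hw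
    refine (hball (y := w) (by rw [hw']; linarith)).1 ?_
    rintro rfl
    rw [dist_self] at hw'
    linarith
  obtain ⟨M₂, hM₂⟩ : ∃ M₂ : ℝ, M₂ = ((N : ℝ) + 2) * (((N : ℝ) + 1) * (a / 2) ^ N) := ⟨_, rfl⟩
  have hM₂0 : 0 < M₂ := by rw [hM₂]; positivity
  refine ⟨max (max (2 ^ (N + 2) + 4) (4 / M)) (max (4 / τ) (2 / M₂)), ?_, ?_⟩
  · have h3 : (1 : ℝ) ≤ 2 ^ (N + 2) := one_le_pow₀ (by norm_num)
    refine le_trans ?_ ((le_max_left _ _).trans (le_max_left _ _))
    linarith
  intro R hR C n c m l hn hcopy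
  have hRa : 2 ^ (N + 2) + 4 ≤ R := ((le_max_left _ _).trans (le_max_left _ _)).trans hR
  have hRb : 4 / M ≤ R := ((le_max_right _ _).trans (le_max_left _ _)).trans hR
  have hRc : 4 / τ ≤ R := ((le_max_left _ _).trans (le_max_right _ _)).trans hR
  have hRd : 2 / M₂ ≤ R := ((le_max_right _ _).trans (le_max_right _ _)).trans hR
  have h2d : (1 : ℝ) ≤ 2 ^ (N + 2) := one_le_pow₀ (by norm_num)
  have hR4 : 5 ≤ R := by linarith
  have hR0 : 0 < R := by linarith
  have hη0 : 0 < 1 / R := by positivity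
  have hη1 : 1 / R ≤ 1 / 2 := by
    rw [div_le_div_iff₀ hR0 (by norm_num)]
    linarith
  have hηM : 1 / R ≤ M / 4 := by
    rw [div_le_iff₀ hM0] at hRb
    rw [div_le_iff₀ hR0]
    linarith
  have hητ : 1 / R ≤ τ / 4 := by
    rw [div_le_iff₀ hτ] at hRc
    rw [div_le_iff₀ hR0]
    linarith
  have hηM₂ : 1 / R ≤ M₂ / 2 := by
    rw [div_le_iff₀ hM₂0] at hRd
    rw [div_le_iff₀ hR0]
    linarith
  have hm : m ≠ 0 := hcopy.1
  have hl0 : 0 < ‖l‖ := norm_pos_iff.2 hcopy.2.1
  -- the renormalised maps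
  obtain ⟨G, hG⟩ : ∃ G : ℂ → ℂ → ℂ, G = fun t z => (fc (N + 2) (c + l * t))^[n] (m * z) / m :=
    ⟨_, rfl⟩
  have hGe : ∀ t z, G t z = (fc (N + 2) (c + l * t))^[n] (m * z) / m := fun t z => by rw [hG]
  have hGb : ∀ t z : ℂ, ‖t‖ ≤ R → ‖z‖ ≤ R → ‖G t z - (z ^ (N + 2) + t)‖ ≤ 1 / R := by
    intro t z ht hz
    rw [hGe]
    exact copy_zero hd hR0 hcopy ht hz
  have hGd : ∀ t z, HasDerivAt (G t) (DD (N + 2) n (c + l * t) (m * z)) z := by
    intro t z
    have h3 : G t = fun z => (fc (N + 2) (c + l * t))^[n] (m * z) / m := funext fun z => hGe t z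
    rw [h3]
    exact deriv_ren hm z
  -- the first derivative
  have hDb : ∀ t z : ℂ, ‖t‖ ≤ R → ‖z‖ ≤ R - 1 →
      ‖DD (N + 2) n (c + l * t) (m * z) - F₀ z‖ ≤ 1 / R := by
    intro t z ht hz
    have h3 : ∀ w : ℂ, HasDerivAt (fun z => G t z - (z ^ (N + 2) + t))
        (DD (N + 2) n (c + l * t) (m * w) - F₀ w) w := by
      intro w
      have h4 := (hGd t w).fun_sub ((hasDerivAt_pow (N + 2) w).add_const t)
      have h5 : F₀ w = ((N + 2 : ℕ) : ℂ) * w ^ (N + 2 - 1) := by
        rw [hF₀]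
        push_cast
        rfl
      rw [h5]
      exact h4
    have h5 := Complex.norm_deriv_le_of_forall_mem_sphere_norm_le
      (f := fun z => G t z - (z ^ (N + 2) + t)) (c := z) one_pos
      (Differentiable.diffContOnCl fun w => (h3 w).differentiableAt) (C := 1 / R) (by
        intro w hw
        rw [mem_sphere, dist_eq_norm] at hw
        apply hGb t w ht
        have := norm_add_le (w - z) z
        rw [sub_add_cancel] at this
        linarith)
    rw [(h3 z).deriv] at h5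
    simpa using h5
  -- the fixed points
  obtain ⟨T, hT1, hT2⟩ := implicit (d := N + 2) hRa hη0.le hη1
    (E := fun t z => G t z - (z ^ (N + 2) + t)) (by
      intro z
      have h3 : (fun t => G t z - (z ^ (N + 2) + t)) =
          fun t => (fc (N + 2) (c + l * t))^[n] (m * z) / m - (z ^ (N + 2) + t) := by
        funext t
        rw [hGe]
      rw [h3, ← differentiableOn_univ]
      apply DifferentiableOn.sub
      · apply DifferentiableOn.div_const
        apply diff2
        · fun_prop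
        · fun_prop
      · fun_prop) (by
      intro T hT
      have h3 : (fun z => G (T z) z - (z ^ (N + 2) + T z)) =
          fun z => (fc (N + 2) (c + l * T z))^[n] (m * z) / m - (z ^ (N + 2) + T z) := by
        funext z
        rw [hGe]
      show DifferentiableOn ℂ (fun z => G (T z) z - (z ^ (N + 2) + T z)) (ball 0 2)
      rw [h3]
      apply DifferentiableOn.sub
      · apply DifferentiableOn.div_const
        apply diff2
        · exact (differentiableOn_const _).add ((differentiableOn_const _).mul hT)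
        · fun_prop
      · exact (differentiable_id.pow _).differentiableOn.add hT) hGb
  have hTR : ∀ z ∈ ball (0 : ℂ) 2, ‖T z‖ ≤ R := by
    intro z hz
    have h3 := (hT2 z hz).2
    rw [mem_ball_zero_iff] at hz
    have h4 := norm_add_le (T z - (z - z ^ (N + 2))) (z - z ^ (N + 2))
    rw [sub_add_cancel] at h4
    have h5 : ‖z - z ^ (N + 2)‖ ≤ 2 + 2 ^ (N + 2) := by
      refine (norm_sub_le _ _).trans ?_
      rw [norm_pow]
      have : ‖z‖ ^ (N + 2) ≤ 2 ^ (N + 2) := by gcongr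
      linarith
    linarith
  have hfix : ∀ z ∈ ball (0 : ℂ) 2, G (T z) z = z := by
    intro z hz
    have h3 := (hT2 z hz).1
    have h4 : T z + z ^ (N + 2) + (G (T z) z - (z ^ (N + 2) + T z)) = z := h3
    linear_combination h4
  have hper : ∀ z ∈ ball (0 : ℂ) 2, (fc (N + 2) (c + l * T z))^[n] (m * z) = m * z := by
    intro z hz
    have h3 := hfix z hz
    rw [hGe, div_eq_iff hm] at h3
    rw [h3, mul_comm]
  -- the multiplier
  obtain ⟨μ, hμ⟩ : ∃ μ : ℂ → ℂ, μ = fun z => DD (N + 2) n (c + l * T z) (m * z) := ⟨_, rfl⟩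
  have hμe : ∀ z, μ z = DD (N + 2) n (c + l * T z) (m * z) := fun z => by rw [hμ]
  have hμd : DifferentiableOn ℂ μ (ball 0 2) := by
    rw [hμ]
    apply diff_DD
    · exact (differentiableOn_const _).add ((differentiableOn_const _).mul hT1)
    · fun_prop
  have hμb : ∀ z ∈ ball (0 : ℂ) 2, ‖μ z - F₀ z‖ ≤ 1 / R := by
    intro z hz
    rw [hμe]
    apply hDb _ _ (hTR z hz)
    rw [mem_ball_zero_iff] at hz
    linarith
  obtain ⟨z', hz', hz'1⟩ := exists_zero (F := fun z => μ z - 1) (p := (a : ℂ)) (m := M / 2) hρ0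
    ((hμd.mono hsub).sub (differentiableOn_const _)) (by
      intro z hz
      have h3 := hμb z (hsub (sphere_subset_closedBall hz))
      have h4 := hM z hz
      have h5 := norm_add_le (F₀ z - μ z) (μ z - 1)
      rw [sub_add_sub_cancel, norm_sub_rev (F₀ z) (μ z)] at h5
      show M / 2 ≤ ‖μ z - 1‖
      linarith) (by
      have h3 := hμb a (hsub (mem_closedBall_self hρ0.le))
      rw [hF₀a] at h3
      show ‖μ a - 1‖ < M / 2
      linarith)
  have hμ1 : μ z' = 1 := by
    have h3 : μ z' - 1 = 0 := hz'1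
    linear_combination h3
  have hz'b : z' ∈ ball (0 : ℂ) 2 := hsub (ball_subset_closedBall hz')
  have hnhds : ball (0 : ℂ) 2 ∈ 𝓝 z' := isOpen_ball.mem_nhds hz'b
  have hμan : AnalyticAt ℂ μ z' := hμd.analyticAt hnhds
  -- attracting parameters nearby
  have hfreq : ∃ᶠ z in 𝓝 z', ‖μ z‖ < 1 := by
    rcases hμan.eventually_constant_or_nhds_le_map_nhds with hc | ho
    · exfalso
      have h3 : EqOn μ (fun _ => μ z') (ball 0 2) := by
        apply (hμd.analyticOnNhd isOpen_ball).eqOn_of_preconnected_of_eventuallyEq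
          analyticOnNhd_const (convex_ball _ _).isPreconnected hz'b
        exact hc
      have h4 := h3 (mem_ball_self (by norm_num : (0 : ℝ) < 2))
      have h5 := hμb 0 (mem_ball_self (by norm_num : (0 : ℝ) < 2))
      have h6 : F₀ 0 = 0 := by
        rw [hF₀]
        simp
      have h7 : μ 0 = 1 := by
        rw [← hμ1]
        exact h4
      rw [h6, h7, sub_zero, norm_one] at h5
      linarith
    · intro hcon
      rw [hμ1] at ho
      have h3 : ∀ᶠ w in 𝓝 (1 : ℂ), ¬ ‖w‖ < 1 := ho hcon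
      have h4 : (1 : ℂ) ∈ closure (ball (0 : ℂ) 1) := by
        rw [closure_ball _ one_ne_zero, mem_closedBall_zero_iff, norm_one]
      rw [mem_closure_iff_frequently] at h4
      obtain ⟨w, hw1, hw2⟩ := (h4.and_eventually h3).exists
      rw [mem_ball_zero_iff] at hw1
      exact hw2 hw1
  have hatt : ∀ z ∈ ball (0 : ℂ) 2, ‖μ z‖ < 1 →
      IsAttractingCycle (fc (N + 2) (c + l * T z)) n (m * z) := by
    intro z hz hlt
    refine ⟨hn, hper z hz, diff_fc _ _ _ _, ?_⟩
    rw [(hasDerivAt_iter (N + 2) n (c + l * T z) (m * z)).deriv, ← hμe]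
    exact hlt
  obtain ⟨y, hy⟩ : ∃ y, y = c + l * T z' := ⟨_, rfl⟩
  have hTc : ContinuousAt T z' := (hT1.differentiableAt hnhds).continuousAt
  have hlim : Tendsto (fun z => c + l * T z) (𝓝 z') (𝓝 y) := by
    rw [hy]
    exact (continuousAt_const.add (continuousAt_const.mul hTc)).tendsto
  have hyM : y ∈ multibrotSet (N + 2) := by
    refine (isCompact_multibrot hd).isClosed.mem_of_frequently_of_tendsto
      (f := fun z => c + l * T z) ?_ hlim
    refine (hfreq.and_eventually hnhds).mono ?_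
    rintro z ⟨h3, h4⟩
    exact Pool.Agent.TH363.CD.mem_multibrot hd (hatt z h4 h3)
  have hyint : y ∉ interior (multibrotSet (N + 2)) := by
    intro hin
    obtain ⟨V, hVM, hVo, hyV⟩ := mem_interior.1 hin
    obtain ⟨ε, hε, hεV⟩ := Metric.isOpen_iff.1 hVo y hyV
    have h3 : ∀ᶠ z in 𝓝 z', c + l * T z ∈ ball y ε := hlim (ball_mem_nhds y hε)
    obtain ⟨z, ⟨h4, h5⟩, h6⟩ := ((hfreq.and_eventually hnhds).and_eventually h3).exists
    obtain ⟨z₂, hz₂⟩ := component hd isOpen_ball (convex_ball y ε).isPreconnected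
      (hεV.trans hVM) h6 (hatt z h5 h4) y (mem_ball_self hε)
    obtain ⟨q, hq0, hq1, hq⟩ := persist' hz₂
    have h7 : ∀ᶠ z in 𝓝 z', ∃ w, (fc (N + 2) (c + l * T z))^[n] w = w ∧
        ‖deriv ((fc (N + 2) (c + l * T z))^[n]) w‖ ≤ q := hlim.eventually hq
    have h8 : ∀ᶠ z in 𝓝 z', q < ‖μ z‖ := by
      have h9 : Tendsto (fun z => ‖μ z‖) (𝓝 z') (𝓝 ‖μ z'‖) := hμan.continuousAt.norm
      rw [hμ1, norm_one] at h9
      exact h9.eventually_const_lt hq1
    obtain ⟨z, ⟨⟨h10, h11⟩, w, hw1, hw2⟩, h12⟩ :=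
      (((hfreq.and_eventually hnhds).and_eventually h7).and_eventually h8).exists
    have h13 : IsAttractingCycle (fc (N + 2) (c + l * T z)) n w :=
      ⟨hn, hw1, diff_fc _ _ _ _, by linarith⟩
    have h14 := mult_unique hd (hatt z h11 h10) h13
    rw [(hasDerivAt_iter (N + 2) n (c + l * T z) w).deriv, ← h14, ← hμe] at hw2
    linarith
  refine ⟨y, ⟨subset_closure hyM, hyint⟩, ?_, ?_⟩
  · have e1 : y - (c + l * ph N a) = l * ((T z' - ph N z') + (ph N z' - ph N a)) := by
      rw [hy]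
      ring
    have h3 : ‖T z' - ph N z'‖ ≤ 1 / R := (hT2 z' hz'b).2
    have h4 : ‖ph N z' - ph N a‖ < τ / 2 := by
      rw [mem_ball] at hz'
      exact (hball (y := z') (by linarith)).2
    rw [e1, norm_mul]
    gcongr
    exact (norm_add_le _ _).trans_lt (by linarith)
  · have hg1 : Differentiable ℂ (G (T z')) := fun z => (hGd (T z') z).differentiableAt
    have hg2 : deriv (G (T z')) z' = 1 := by
      rw [(hGd (T z') z').deriv, ← hμe, hμ1]
    have hg3 : deriv (deriv (G (T z'))) z' ≠ 0 := by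
      have h3 : deriv (G (T z')) = fun z => DD (N + 2) n (c + l * T z') (m * z) :=
        funext fun z => (hGd (T z') z).deriv
      rw [h3]
      have h4 : Differentiable ℂ fun z => DD (N + 2) n (c + l * T z') (m * z) := by
        rw [← differentiableOn_univ]
        apply diff_DD
        · fun_prop
        · fun_prop
      have h5 : ∀ w : ℂ, HasDerivAt (fun z => DD (N + 2) n (c + l * T z') (m * z) - F₀ z)
          (deriv (fun z => DD (N + 2) n (c + l * T z') (m * z)) w -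
            ((N : ℂ) + 2) * (((N + 1 : ℕ) : ℂ) * w ^ N)) w :=
        fun w => (h4 w).hasDerivAt.sub (hF₀d w)
      have h6 := Complex.norm_deriv_le_of_forall_mem_sphere_norm_le
        (f := fun z => DD (N + 2) n (c + l * T z') (m * z) - F₀ z) (c := z') one_pos
        (Differentiable.diffContOnCl fun w => (h5 w).differentiableAt) (C := 1 / R) (by
          intro w hw
          rw [mem_sphere, dist_eq_norm] at hw
          apply hDb _ w (hTR z' hz'b)
          have := norm_add_le (w - z') z'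
          rw [sub_add_cancel] at this
          rw [mem_ball_zero_iff] at hz'b
          linarith)
      rw [(h5 z').deriv, div_one] at h6
      intro h0
      rw [h0, zero_sub, norm_neg] at h6
      have h7 : a / 2 ≤ ‖z'‖ := by
        have h8 := norm_sub_norm_le (a : ℂ) (a - z')
        rw [sub_sub_cancel, hna] at h8
        rw [mem_ball, dist_comm, dist_eq_norm] at hz'
        linarith
      have h8 : M₂ ≤ ‖((N : ℂ) + 2) * (((N + 1 : ℕ) : ℂ) * z' ^ N)‖ := by
        have e2 : ‖(N : ℂ) + 2‖ = (N : ℝ) + 2 := by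
          have : ((N : ℂ) + 2) = (((N : ℝ) + 2 : ℝ) : ℂ) := by push_cast; rfl
          rw [this, Complex.norm_real, Real.norm_of_nonneg hN2.le]
        rw [norm_mul, norm_mul, norm_pow, e2, Complex.norm_natCast, hM₂]
        push_cast
        gcongr
      linarith
    obtain ⟨U, hU1, hU2, hU3, hU4⟩ := petal hg1 (hfix z' hz'b) hg2 hg3
    rw [hy]
    refine fat_of hn hm hU1 hU2 hU3 ?_
    intro u hu
    have := hU4 hu
    rwa [hGe] at this

end Pool.Agent.Helper95.GQ
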