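import Pool.Agent.Helper95.GP.Fam
import Pool.Agent.Helper95.GQ.Par
import Pool.Graph.R_seed8.Y298.GA.JulRat
import Pool.Graph.R_seed8.Y298.GA.RFix
import Pool.Graph.R_seed8.Y657.GA.RBAS

set_option autoImplicit false

/-! # Fat filled Julia sets near every boundary parameter -/

namespace Pool.Agent.Helper95.GQ

open Set Filter Metric MeasureTheory Topology Polynomial
open N62a1eb23
open Pool.Agent.Helper95.GB (ph exists_a lyap_dense exp_lim)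
open Pool.Agent.H712R2 (fc P isCompact_multibrot)
open Pool.Agent.Helper95.GP (copyP near_centres residual_of rate_residual rate_of lyapunov_of
  norm_le_two)

variable {d : ℕ}

/-- the filled Julia set of `z ^ d + c` -/
def Kc (d : ℕ) (c : ℂ) : Set ℂ := {z : ℂ | ¬ Tendsto (fun k : ℕ => ‖(fc d c)^[k] z‖) atTop atTop}

/-- **Density of boundary parameters with fat filled Julia sets.** -/
theorem fat_dense (hd : 2 ≤ d) {x : ℂ} (hx : x ∈ frontier (multibrotSet d)) {r : ℝ}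
    (hr : 0 < r) : ∃ y ∈ frontier (multibrotSet d), ‖y - x‖ < r ∧ 0 < volume (Kc d y) := by
  obtain ⟨c₀, -, hc₀x, hL⟩ := lyap_dense hd hx (half_pos hr)
  obtain ⟨C, δ', hC, hδ', hδχ, H⟩ := copyP hd hL
  obtain ⟨N, rfl⟩ : ∃ N, d = N + 2 := ⟨d - 2, by omega⟩
  obtain ⟨a, ha, h⟩ := exists_a N
  obtain ⟨R₂, hR₂, HB⟩ := par ha h one_pos
  obtain ⟨T, hT⟩ : ∃ T, T = ‖ph N (a : ℂ)‖ + 1 := ⟨_, rfl⟩
  have hT0 : 0 < T := by rw [hT]; positivity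
  have hC0 : 0 < C := by linarith
  obtain ⟨R, hR⟩ : ∃ R, R = max R₂ (8 * C * T / r) := ⟨_, rfl⟩
  have hRb : R₂ ≤ R := by rw [hR]; exact le_max_left _ _
  have hRd : 8 * C * T / r ≤ R := by rw [hR]; exact le_max_right _ _
  have hR1 : 1 ≤ R := hR₂.trans hRb
  have hR0 : 0 < R := by linarith
  obtain ⟨n, hn1, ⟨c, hc1, hc2⟩, hn3, hn4⟩ := ((H R hR1).and ((near_centres hd hL hδ').and
    ((exp_lim (sub_pos.2 hδχ) (show 0 < r / 8 by positivity)).and (eventually_ge_atTop 1)))).exists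
  obtain ⟨m, l, hcopy⟩ := hn1 c hc1 hc2
  obtain ⟨y, hyf, hyl, hyv⟩ := HB R hRb C n c m l (by omega) hcopy
  refine ⟨y, hyf, ?_, hyv⟩
  obtain ⟨hm, hl, hmR, hlm, -⟩ := hcopy
  have hl0 : 0 < ‖l‖ := norm_pos_iff.2 hl
  have hlR : ‖l‖ ≤ C / R := by
    have h1 : ‖m‖ ^ (N + 2) ≤ 1 / R := by
      calc ‖m‖ ^ (N + 2) ≤ ‖m‖ ^ 1 := pow_le_pow_of_le_one (norm_nonneg m)
            (hmR.trans (by rw [div_le_one hR0]; exact hR1)) (by omega)
        _ = ‖m‖ := pow_one _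
        _ ≤ 1 / R := hmR
    calc ‖l‖ ≤ C * ‖m‖ ^ (N + 2) := hlm
      _ ≤ C * (1 / R) := by gcongr
      _ = C / R := by ring
  have hlT : ‖l‖ * T ≤ r / 8 := by
    rw [div_le_iff₀ hr] at hRd
    calc ‖l‖ * T ≤ C / R * T := by gcongr
      _ = C * T / R := by ring
      _ ≤ r / 8 := by
          rw [div_le_iff₀ hR0]
          linarith
  have e1 : y - x = (y - (c + l * ph N a)) + (c - c₀) + l * ph N a + (c₀ - x) := by ring
  rw [e1]
  have e2 : ‖l‖ * 1 + ‖l * ph N (a : ℂ)‖ ≤ r / 8 := by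
    rw [norm_mul]
    rw [hT] at hlT
    linarith
  calc _ ≤ ‖y - (c + l * ph N a)‖ + ‖c - c₀‖ + ‖l * ph N (a : ℂ)‖ + ‖c₀ - x‖ := by
        refine (norm_add_le _ _).trans (add_le_add ?_ le_rfl)
        refine (norm_add_le _ _).trans (add_le_add ?_ le_rfl)
        exact norm_add_le _ _
    _ < r := by linarith

/-- **No modulus of continuity.** -/
theorem slow_residual (hd : 2 ≤ d) {ω : ℝ → ℝ} (hω : Tendsto ω (𝓝[>] 0) (𝓝 0)) :
    ∀ᶠ c₀ : frontier (multibrotSet d) in residual (frontier (multibrotSet d)),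
      ∃ᶠ r in 𝓝[>] (0 : ℝ), ∃ c ∈ frontier (multibrotSet d), ‖c - c₀‖ < r ∧
        ENNReal.ofReal (ω r) < volume (Kc d c) := by
  have h1 : ∀ᶠ c₀ : frontier (multibrotSet d) in residual (frontier (multibrotSet d)),
      ∀ i : ℕ, ∃ r : ℝ, 0 < r ∧ r < 1 / ((i : ℝ) + 1) ∧ ∃ c ∈ frontier (multibrotSet d),
        ‖c - c₀‖ < r ∧ ENNReal.ofReal (ω r) < volume (Kc d c) := by
    rw [eventually_countable_forall]
    intro i
    apply residual_of (T := {c₀ : ℂ | ∃ r : ℝ, 0 < r ∧ r < 1 / ((i : ℝ) + 1) ∧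
      ∃ c ∈ frontier (multibrotSet d), ‖c - c₀‖ < r ∧ ENNReal.ofReal (ω r) < volume (Kc d c)})
    intro x hx r hr
    obtain ⟨y, hy1, hy2, hy3⟩ := fat_dense hd hx hr
    refine ⟨y, hy1, hy2, ?_⟩
    have h2 : Tendsto (fun r => ENNReal.ofReal (ω r)) (𝓝[>] 0) (𝓝 (ENNReal.ofReal 0)) :=
      (ENNReal.continuous_ofReal.tendsto 0).comp hω
    rw [ENNReal.ofReal_zero] at h2
    have h3 : ∀ᶠ r in 𝓝[>] (0 : ℝ), r < 1 / ((i : ℝ) + 1) :=
      mem_nhdsWithin_of_mem_nhds (gt_mem_nhds (by positivity))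
    obtain ⟨s, h4, h5, h6⟩ := ((h2.eventually_lt_const hy3).and
      (h3.and self_mem_nhdsWithin)).exists
    have hs0 : 0 < s := h6
    filter_upwards [ball_mem_nhds y hs0] with c hc
    rw [mem_ball, dist_comm, dist_eq_norm] at hc
    exact ⟨s, hs0, h5, y, hy1, hc, h4⟩
  filter_upwards [h1] with c₀ hc₀
  by_contra hcon
  rw [not_frequently] at hcon
  obtain ⟨δ, hδ, H⟩ := mem_nhdsGT_iff_exists_Ioc_subset.1 hcon
  obtain ⟨i, hi⟩ := exists_nat_one_div_lt (show 0 < δ from hδ)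
  obtain ⟨r, h2, h3, h4⟩ := hc₀ i
  exact H ⟨h2, (h3.trans hi).le⟩ h4

/-- crossing of powers by monotone functions -/
theorem crossing {A : ℝ → ℝ} {δ₀ E₀ β : ℝ} (hδ₀ : 0 < δ₀)
    (hmono : ∀ r s : ℝ, 0 < r → r ≤ s → s < δ₀ → A r ≤ A s)
    (hlow : ∀ E : ℝ, E < E₀ → ∃ᶠ r in 𝓝[>] (0 : ℝ), A r ≤ r ^ E)
    (hhigh : ∀ η : ℝ, 0 < η → ∃ᶠ r in 𝓝[>] (0 : ℝ), r ^ η ≤ A r) (hβ0 : 0 < β) (hβ : β < E₀) :
    ∃ᶠ r in 𝓝[>] (0 : ℝ), A r = r ^ β := by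
  by_contra hcon
  rw [not_frequently] at hcon
  obtain ⟨δ, hδ, H⟩ := mem_nhdsGT_iff_exists_Ioo_subset.1 hcon
  have hδ' : 0 < δ := hδ
  obtain ⟨δ₁, hδ₁⟩ : ∃ δ₁, δ₁ = min (min δ δ₀) 1 := ⟨_, rfl⟩
  have hδ₁0 : 0 < δ₁ := by rw [hδ₁]; positivity
  have hδ₁a : δ₁ ≤ δ := by rw [hδ₁]; exact (min_le_left _ _).trans (min_le_left _ _)
  have hδ₁b : δ₁ ≤ δ₀ := by rw [hδ₁]; exact (min_le_left _ _).trans (min_le_right _ _)
  have hδ₁c : δ₁ ≤ 1 := by rw [hδ₁]; exact min_le_right _ _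
  obtain ⟨E, hE1, hE2⟩ := exists_between hβ
  obtain ⟨r₁, h1, h2⟩ := ((hlow E hE2).and_eventually (Ioo_mem_nhdsGT hδ₁0)).exists
  obtain ⟨r₂, h3, h4⟩ := ((hhigh (β / 2) (half_pos hβ0)).and_eventually
    (Ioo_mem_nhdsGT h2.1)).exists
  have hr₁ : 0 < r₁ := h2.1
  have hr₂ : 0 < r₂ := h4.1
  have hr₁1 : r₁ < 1 := h2.2.trans_le hδ₁c
  have hr₂1 : r₂ < 1 := h4.2.trans hr₁1
  obtain ⟨Z, hZ⟩ : ∃ Z : Set ℝ, Z = {r | r₂ ≤ r ∧ r ≤ r₁ ∧ A r ≤ r ^ β} := ⟨_, rfl⟩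
  have hr₁Z : r₁ ∈ Z := by
    rw [hZ]
    refine ⟨h4.2.le, le_rfl, h1.trans ?_⟩
    exact Real.rpow_le_rpow_of_exponent_ge hr₁ hr₁1.le hE1.le
  have hr₂Z : r₂ ∉ Z := by
    rw [hZ]
    rintro ⟨-, -, h5⟩
    have h6 : r₂ ^ β < r₂ ^ (β / 2) :=
      Real.rpow_lt_rpow_of_exponent_gt hr₂ hr₂1 (by linarith)
    linarith
  have hbdd : BddBelow Z := by
    refine ⟨r₂, ?_⟩
    rw [hZ]
    rintro r ⟨h5, -⟩
    exact h5
  obtain ⟨s, hs⟩ : ∃ s, s = sInf Z := ⟨_, rfl⟩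
  have hs1 : r₂ ≤ s := by
    rw [hs]
    apply le_csInf ⟨r₁, hr₁Z⟩
    rw [hZ]
    rintro r ⟨h5, -⟩
    exact h5
  have hs2 : s ≤ r₁ := by
    rw [hs]
    exact csInf_le hbdd hr₁Z
  have hs0 : 0 < s := hr₂.trans_le hs1
  have hcont : ContinuousAt (fun r : ℝ => r ^ β) s :=
    Real.continuousAt_rpow_const s β (Or.inl hs0.ne')
  have hsδ₀ : s < δ₀ := hs2.trans_lt (h2.2.trans_le hδ₁b)
  have hupper : A s ≤ s ^ β := by
    by_contra h5
    rw [not_le] at h5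
    obtain ⟨ε, hε, hball⟩ := Metric.eventually_nhds_iff.1 (hcont.eventually_lt_const h5)
    obtain ⟨r, hrZ, hr⟩ := exists_lt_of_csInf_lt ⟨r₁, hr₁Z⟩
      (show sInf Z < s + ε by rw [← hs]; linarith)
    have h6 : s ≤ r := by
      rw [hs]
      exact csInf_le hbdd hrZ
    have h7 := hball (y := r) (by
      rw [Real.dist_eq, abs_of_nonneg (by linarith)]
      linarith)
    rw [hZ] at hrZ
    obtain ⟨-, h8, h9⟩ := hrZ
    have h10 := hmono s r hs0 h6 (h8.trans_lt (h2.2.trans_le hδ₁b))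
    linarith
  have hsZ : s ∈ Z := by
    rw [hZ]
    exact ⟨hs1, hs2, hupper⟩
  have hs3 : r₂ < s := by
    rcases hs1.eq_or_lt with h5 | h5
    · exfalso
      apply hr₂Z
      rw [h5]
      exact hsZ
    · exact h5
  have hlower : s ^ β ≤ A s := by
    by_contra h5
    rw [not_le] at h5
    obtain ⟨ε, hε, hball⟩ := Metric.eventually_nhds_iff.1 (hcont.eventually_const_lt h5)
    obtain ⟨r, hr1, hr2⟩ := exists_between (max_lt hs3 (sub_lt_self s hε))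
    have h6 : r₂ < r := (le_max_left _ _).trans_lt hr1
    have h7 : s - ε < r := (le_max_right _ _).trans_lt hr1
    have h8 := hball (y := r) (by
      rw [Real.dist_eq, abs_of_nonpos (by linarith)]
      linarith)
    have h9 : r ∉ Z := by
      intro h10
      have : s ≤ r := by
        rw [hs]
        exact csInf_le hbdd h10
      linarith
    rw [hZ] at h9
    have h10 : r ^ β < A r := by
      by_contra h11
      rw [not_lt] at h11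
      exact h9 ⟨h6.le, (hr2.le.trans hs2), h11⟩
    have h11 := hmono r s (hr₂.trans h6) hr2.le hsδ₀
    linarith
  exact H ⟨hs0, hs2.trans_lt (h2.2.trans_le hδ₁a)⟩ (le_antisymm hupper hlower)

/-- cluster values of the exponent -/
theorem cluster_log {A : ℝ → ℝ} {δ₀ E₀ : ℝ} (hδ₀ : 0 < δ₀) (hE₀ : 0 < E₀)
    (hmono : ∀ r s : ℝ, 0 < r → r ≤ s → s < δ₀ → A r ≤ A s)
    (hlow : ∀ E : ℝ, E < E₀ → ∃ᶠ r in 𝓝[>] (0 : ℝ), A r ≤ r ^ E)
    (hhigh : ∀ η : ℝ, 0 < η → ∃ᶠ r in 𝓝[>] (0 : ℝ), r ^ η ≤ A r) {β : ℝ}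
    (hβ : β ∈ Icc (0 : ℝ) E₀) :
    MapClusterPt β (𝓝[>] 0) (fun r => Real.log (A r) / Real.log r) := by
  rw [mapClusterPt_iff_frequently]
  intro s hs
  have h1 : β ∈ closure (Ioo (0 : ℝ) E₀) := by
    rw [closure_Ioo hE₀.ne]
    exact hβ
  obtain ⟨γ, hγs, hγ0, hγ1⟩ := mem_closure_iff_nhds.1 h1 s hs
  have hr1 : ∀ᶠ r in 𝓝[>] (0 : ℝ), r < 1 := mem_nhdsWithin_of_mem_nhds (gt_mem_nhds one_pos)
  refine ((crossing hδ₀ hmono hlow hhigh hγ0 hγ1).and_eventually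
    (hr1.and self_mem_nhdsWithin)).mono ?_
  rintro r ⟨h2, h3, h4⟩
  have hr0 : 0 < r := h4
  have hlog : Real.log r ≠ 0 := (Real.log_neg hr0 h3).ne
  show Real.log (A r) / Real.log r ∈ s
  rw [h2, Real.log_rpow hr0, mul_div_cancel_right₀ _ hlog]
  exact hγs

/-- the bounded points of all rational maps near `z ^ d + c` -/
noncomputable def RA (d : ℕ) (c : ℂ) (r : ℝ) : ENNReal :=
  ⨆ (P : ℂ[X]) (Q : ℂ[X]) (_ : Pool.Agent.Y298.GA.Nr d c r P Q),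
    volume {z : ℂ | ∀ n : ℕ, ‖(fun y => P.eval y / Q.eval y)^[n] z‖ ≤ 5 / 2}

theorem le_RA {c : ℂ} {r : ℝ} {P Q : ℂ[X]} (h : Pool.Agent.Y298.GA.Nr d c r P Q) :
    volume {z : ℂ | ∀ n : ℕ, ‖(fun y => P.eval y / Q.eval y)^[n] z‖ ≤ 5 / 2} ≤ RA d c r :=
  le_iSup_of_le P (le_iSup_of_le Q (le_iSup_of_le h le_rfl))

theorem RA_mono (c y : ℂ) (s r : ℝ) (h : ‖c - y‖ + s ≤ r) : RA d c s ≤ RA d y r := by
  apply iSup_le
  intro P
  apply iSup_le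
  intro Q
  apply iSup_le
  intro h1
  apply le_RA
  have hsr : s ≤ r := by
    have := norm_nonneg (c - y)
    linarith
  obtain ⟨a1, a2, a3, a4⟩ := h1
  have h2 := (Pool.Agent.Helper95.GP.nr_sub (d := d) h) (a := P) ⟨a1, a3⟩
  exact ⟨h2.1, a2, h2.2, fun i => (a4 i).trans hsr⟩

theorem rat_residual (hd : 2 ≤ d) :
    ∀ᶠ c₀ : frontier (multibrotSet d) in residual (frontier (multibrotSet d)),
      ∀ E : ℝ, E < 2 / ((d : ℝ) - 1) → ∃ᶠ r in 𝓝[>] (0 : ℝ),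
        RA d (c₀ : ℂ) r ≤ ENNReal.ofReal (r ^ E) := by
  have hdR : (2 : ℝ) ≤ d := by exact_mod_cast hd
  have hd1 : 0 < (d : ℝ) - 1 := by linarith
  have hb := Pool.Agent.Y657.GA.rbas
  apply rate_residual hd (F := RA d)
  · intro c y s r _ h
    exact RA_mono c y s r h
  · intro y hy E hE
    have hc : ‖y‖ ≤ 2 := norm_le_two hd hy.2.1
    apply rate_of (by positivity) _ hE
    intro E' h1 h2
    obtain ⟨K, r₁, hK, hr₁, H⟩ := Pool.Agent.Y298.GA.jarea hb hd hc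
      (Pool.Agent.Y298.GA.ak_lyap hd hy h1 h2)
    refine ⟨K, r₁, hK, hr₁, fun r hr hrr => ?_⟩
    apply iSup_le
    intro P
    apply iSup_le
    intro Q
    apply iSup_le
    intro h3
    exact H r hr hrr P Q h3

end Pool.Agent.Helper95.GQ
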